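import Pool.Agent.U963.KN.Defs

/-!
# Open closures of braids on three strands
-/

set_option autoImplicit false

namespace Pool.Agent.U963.OB

open Pool.Agent.H891R2.Jones Pool.Agent.W639.RB Pool.Agent.Y463.SK Pool.Agent.U963.KN

/-- The outside of a box of three strands, made from the outside `O` of a box of two strands by the insertion of an
open strand: the tail (marked point `inr false`) is the lower end number `p`, the head (marked point
`inr true`) is the upper end number `q` of the new box, and the two other lower (upper) ends are the lower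
(upper) ends of the old box, from left to right. -/
def openUp (O : Outer 2) (p q : Fin 3) : Outer 3 where
  P := O.P ⊕ Bool
  arcs := O.arcs.map (Prod.map .inl .inl)
  crossings := O.crossings.map (Crossing.map .inl)
  lower := p.insertNth (.inr false) (fun j => .inl (O.lower j))
  upper := q.insertNth (.inr true) (fun j => .inl (O.upper j))
  up := fun _ => true

/-- The outside of the box of a 3-braid for the open closure of type `(p, q, k)`: the tail is the lower end number
`p`, the head is the upper end number `q`, and the two closing arcs, which run around the box from the two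
other upper ends to the two other lower ends, cross each other `|k|` times, all these crossings have the
sign of `k`. -/
def openBraid (p q : Fin 3) (k : ℤ) : Outer 3 :=
  OB.openUp (draw (braidClosure 2) (List.replicate k.natAbs (decide (0 ≤ k), 0))) p q

/-- the word `σ_1^n` -/
def s1 (n : ℤ) : List (Letter 3) := powW [(true, 0)] n

/-- the word `σ_2^n` -/
def s2 (n : ℤ) : List (Letter 3) := powW [(true, 1)] n

/-- `w` is conjugate in the braid group to `σ_1 σ_2`, `σ_1⁻¹ σ_2⁻¹` or `σ_1 σ_2⁻¹` -/
def Unknotted (w : List (Letter 3)) : Prop :=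
  ∃ g : List (Letter 3), SameBraid (w ++ g) (g ++ [(true, 0), (true, 1)]) ∨
    SameBraid (w ++ g) (g ++ [(false, 0), (false, 1)]) ∨ SameBraid (w ++ g) (g ++ [(true, 0), (false, 1)])

/-- The braid word in the box after the crossings of the closing arcs of the open closure of type `(p, q, k)` have
been slid into the box, where they become `σ_2^k` or `σ_1^k`, before or after `w` (this is possible if
`(p, q) ≠ (1, 1)`). -/
def slide (p q : Fin 3) (k : ℤ) (w : List (Letter 3)) : List (Letter 3) :=
  if p = 0 then s2 k ++ w else if p = 2 then s1 k ++ w else if q = 0 then w ++ s2 k else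
    if q = 2 then w ++ s1 k else w

/-- The list of the braids `w` whose open closure of type `(p, q, k)` is visibly trivial. -/
def Listed (p q : Fin 3) (k : ℤ) (w : List (Letter 3)) : Prop :=
  (p = q ∧ (p = 1 → k = 0) ∧ Unknotted (slide p q k w)) ∨
  (p = 1 ∧ q = 1 ∧ (k = 1 ∨ k = -1) ∧ ∃ x : Letter 3, SameBraid w [x]) ∨
  (p = 0 ∧ q = 2 ∧ ∃ n : ℤ, SameBraid (slide p q k w) (s2 n ++ s1 (-n))) ∨
  (p = 2 ∧ q = 0 ∧ ∃ n : ℤ, SameBraid (slide p q k w) (s1 n ++ s2 (-n))) ∨
  (p ≠ q ∧ p ≠ 2 ∧ q ≠ 2 ∧ ∃ (s : Bool) (n : ℤ), SameBraid (slide p q k w) (s1 n ++ [(s, 1)] ++ s1 (-n))) ∨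
  (p ≠ q ∧ p ≠ 0 ∧ q ≠ 0 ∧ ∃ (s : Bool) (n : ℤ), SameBraid (slide p q k w) (s2 n ++ [(s, 0)] ++ s2 (-n)))

end Pool.Agent.U963.OB
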