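import Pool.Agent.U963.OB.Sl

/-!
# The classification
-/

set_option autoImplicit false

namespace Pool.Agent.U963.OB

open Finset LaurentPolynomial Pool.Agent.H891R2.Jones Pool.Agent.W639.RB Pool.Agent.Y463.SK Pool.Agent.Y463.MP
open Pool.Agent.TH561 (dl ee_of KK)
open Pool.Agent.U963.AR (V3 run one stp wZ wZ_val bracket_draw)
open Pool.Agent.U963.KN
open Pool.Agent.H832R3.TW (IsKnotoid)
open Pool.Agent.H297.FT (KGood KGood_push knotoid_iff)
open Pool.Agent.U963.JN (un fPoly_eq)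

/-! ### knotoid diagrams -/

theorem sum_ins {P : Type} [DecidableEq P] (p : Fin 3) (b : Bool) (f : Fin 2 → P) (x : P ⊕ Bool) : 
    (∑ j : Fin 3, if (p.insertNth (Sum.inr b) (fun j => Sum.inl (f j)) : Fin 3 → P ⊕ Bool) j = x then 1 else 0) = 
      ((if Sum.inl (f 0) = x then 1 else 0) + (if Sum.inr b = x then 1 else 0) + (if Sum.inl (f 1) = x then 1 else 0) : ℕ) := by
  rw [Fin.sum_univ_three]
  fin_cases p
  · show (if Sum.inr b = x then 1 else 0) + (if Sum.inl (f 0) = x then 1 else 0) + (if Sum.inl (f 1) = x then 1 else 0) = _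
    omega
  · rfl
  · show (if Sum.inl (f 0) = x then 1 else 0) + (if Sum.inl (f 1) = x then 1 else 0) + (if Sum.inr b = x then 1 else 0) = _
    omega

theorem Sst_ob (O : Outer 2) (p q : Fin 3) (hu : ∀ j, O.up j = true) (h : ∀ x, Sst O (fun _ => true) x = 1) (x : O.P ⊕ Bool) : 
    Sst (OB.openUp O p q) (fun _ => true) x = if x = Sum.inr true then 0 else 1 := by
  have H := aux_open O.arcs O.crossings (O.lower 0) (O.lower 1) false (by
    intro z
    have hz := h z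
    unfold Sst at hz
    rw [Fin.sum_univ_two, Fin.sum_univ_two, hu, hu] at hz
    simp only [true_and, not_true_eq_false, false_and, if_false, add_zero] at hz
    exact hz) x
  refine Eq.trans ?_ H
  show ((O.arcs.map (Prod.map (Sum.inl : O.P → O.P ⊕ Bool) (Sum.inl : O.P → O.P ⊕ Bool))).map 
      (fun z : (O.P ⊕ Bool) × (O.P ⊕ Bool) => if z.1 = x then (1 : ℕ) else 0)).sum + 
    ((O.crossings.map (Crossing.map (Sum.inl : O.P → O.P ⊕ Bool))).map (cst x)).sum + 
    (∑ j : Fin 3, if (true = true ∧ (p.insertNth (Sum.inr false) (fun j => Sum.inl (O.lower j)) : Fin 3 → O.P ⊕ Bool) j = x) then 1 else 0) + 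
    (∑ j : Fin 3, if (¬ (true = true) ∧ (q.insertNth (Sum.inr true) (fun j => Sum.inl (O.upper j)) : Fin 3 → O.P ⊕ Bool) j = x) then 1 else 0) = _
  simp only [true_and, not_true_eq_false, false_and, if_false, Finset.sum_const_zero, add_zero]
  rw [sum_ins]

theorem Sst_rev_ob (O : Outer 2) (p q : Fin 3) (hu : ∀ j, O.up j = true) (h : ∀ x : O.P, Sst O.rev (fun _ => false) x = 1) (x : O.P ⊕ Bool) : 
    Sst (OB.openUp O p q).rev (fun _ => false) x = if x = Sum.inr false then 0 else 1 := by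
  have H := aux_open (O.arcs.map Prod.swap) (O.crossings.map Crossing.rev) (O.upper 0) (O.upper 1) true (by
    intro z
    have hz : ((O.arcs.map Prod.swap).map (fun y : O.P × O.P => if y.1 = z then (1 : ℕ) else 0)).sum + 
      ((O.crossings.map Crossing.rev).map (cst z)).sum + 
      (∑ j : Fin 2, if ((!(O.up j)) = true ∧ O.lower j = z) then 1 else 0) + 
      (∑ j : Fin 2, if (¬ (false = true) ∧ O.upper j = z) then 1 else 0) = 1 := h z
    rw [Fin.sum_univ_two, Fin.sum_univ_two, hu, hu] at hz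
    simp only [Bool.not_true, Bool.false_eq_true, not_false_eq_true, true_and, false_and, if_false, add_zero] at hz
    exact hz) x
  refine Eq.trans ?_ H
  have ea : (OB.openUp O p q).rev.arcs = (O.arcs.map Prod.swap).map (Prod.map Sum.inl Sum.inl) := by
    unfold OB.openUp Outer.rev
    dsimp only
    rw [List.map_map, List.map_map]
    rfl
  have ec : (OB.openUp O p q).rev.crossings = (O.crossings.map Crossing.rev).map (Crossing.map Sum.inl) := by
    unfold OB.openUp Outer.rev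
    dsimp only
    rw [List.map_map, List.map_map]
    rfl
  unfold Sst
  rw [ea, ec]
  show (((O.arcs.map Prod.swap).map (Prod.map (Sum.inl : O.P → O.P ⊕ Bool) (Sum.inl : O.P → O.P ⊕ Bool))).map 
      (fun z : (O.P ⊕ Bool) × (O.P ⊕ Bool) => if z.1 = x then (1 : ℕ) else 0)).sum + 
    (((O.crossings.map Crossing.rev).map (Crossing.map (Sum.inl : O.P → O.P ⊕ Bool))).map (cst x)).sum + 
    (∑ j : Fin 3, if ((!true) = true ∧ (p.insertNth (Sum.inr false) (fun j => Sum.inl (O.lower j)) : Fin 3 → O.P ⊕ Bool) j = x) then 1 else 0) + 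
    (∑ j : Fin 3, if (¬ (false = true) ∧ (q.insertNth (Sum.inr true) (fun j => Sum.inl (O.upper j)) : Fin 3 → O.P ⊕ Bool) j = x) then 1 else 0) = _
  simp only [Bool.not_true, Bool.false_eq_true, not_false_eq_true, true_and, false_and, if_false, Finset.sum_const_zero, add_zero]
  rw [sum_ins]

theorem kgood_ob (p q : Fin 3) (k : ℤ) : KGood (openBraid p q k) (fun _ => true) := by
  have hg := KN.good_draw _ (List.replicate k.natAbs (decide (0 ≤ k), 0)) _ good_cl
  have hu := (draw_up (List.replicate k.natAbs (decide (0 ≤ k), 0)) (braidClosure 2) (rep_lt k) (fun _ => rfl)).1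
  exact ⟨Sum.inr false, Sum.inr true, fun h => absurd (Sum.inr.inj h) (by decide), Sst_ob _ p q hu hg.1, Sst_rev_ob _ p q hu hg.2⟩

theorem ob_knotoid (p q : Fin 3) (k : ℤ) (w : List (Letter 3)) : IsKnotoid (dia (openBraid p q k) w) := by
  unfold dia
  rw [knotoid_iff]
  have h2 : (draw (openBraid p q k) (w.map (fun x => (x.1, (x.2 : ℕ))))).up = fun _ => true := by
    funext j
    exact (draw_up _ (openBraid p q k) (KN.toN_lt w) (fun _ => rfl)).1 j
  rw [h2]
  exact kgood_draw _ _ _ (kgood_ob p q k)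

/-! ### the functionals -/

theorem sw_nrun (w : List (Bool × ℕ)) : ∀ v : V3 ℤ[T;T⁻¹], (∀ x ∈ w, x.2 + 1 < 3) → 
    V3.sw (nrun w v) = nrun (swp w) (V3.sw v) := by
  induction w with
  | nil => intro v _; rfl
  | cons x w ih =>
    intro v hw
    have e : swp (x :: w) = (x.1, 1 - x.2) :: swp w := rfl
    rw [nrun, ih _ (fun y hy => hw y (List.mem_cons_of_mem _ hy)), e, nrun]
    congr 1
    have hx := hw x List.mem_cons_self
    exact sw_stp _ _ _ _ hx

theorem sw_X (w : List (Bool × ℕ)) (hw : ∀ x ∈ w, x.2 + 1 < 3) : V3.sw (X w) = X (swp w) := by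
  unfold X
  rw [sw_nrun w _ hw, sw_one]

theorem Fu02 (v : V3 ℤ[T;T⁻¹]) : Fu dB 0 0 2 v = S1 dB v := by
  show (1 * v.a0 + 1 * v.a1 + 1 * v.a2 + 1 * v.a3 + dB * v.a4) + 0 * _ = _
  unfold S1
  ring

theorem Fu20 (v : V3 ℤ[T;T⁻¹]) : Fu dB 0 2 0 v = S1 dB (V3.sw v) := by
  show (1 * v.a0 + 1 * v.a1 + 1 * v.a2 + dB * v.a3 + 1 * v.a4) + 0 * _ = _
  unfold S1 V3.sw
  ring

theorem Fu01 (v : V3 ℤ[T;T⁻¹]) : Fu dB 0 0 1 v = S2 dB v := by
  show (dB * v.a0 + dB * v.a1 + 1 * v.a2 + 1 * v.a3 + 1 * v.a4) + 0 * _ = _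
  unfold S2
  ring

theorem Fu10 (v : V3 ℤ[T;T⁻¹]) : Fu dB 0 1 0 v = S2 dB v := by
  show (dB * v.a0 + dB * v.a1 + 1 * v.a2 + 1 * v.a3 + 1 * v.a4) + 0 * _ = _
  unfold S2
  ring

theorem Fu12 (v : V3 ℤ[T;T⁻¹]) : Fu dB 0 1 2 v = S2 dB (V3.sw v) := by
  show (dB * v.a0 + 1 * v.a1 + dB * v.a2 + 1 * v.a3 + 1 * v.a4) + 0 * _ = _
  unfold S2 V3.sw
  ring

theorem Fu21 (v : V3 ℤ[T;T⁻¹]) : Fu dB 0 2 1 v = S2 dB (V3.sw v) := by
  show (dB * v.a0 + 1 * v.a1 + dB * v.a2 + 1 * v.a3 + 1 * v.a4) + 0 * _ = _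
  unfold S2 V3.sw
  ring

theorem Fupp (p : Fin 3) (v : V3 ℤ[T;T⁻¹]) : Fu dB 0 p p v = S3 dB 0 v := by
  fin_cases p
  all_goals
    show (dB ^ 2 * v.a0 + dB * v.a1 + dB * v.a2 + 1 * v.a3 + 1 * v.a4) + 0 * _ = _
    unfold S3
    ring

theorem Fu11 (c : ℤ[T;T⁻¹]) (v : V3 ℤ[T;T⁻¹]) : Fu dB c 1 1 v = S3 dB c v := by
  show (dB ^ 2 * v.a0 + dB * v.a1 + dB * v.a2 + 1 * v.a3 + 1 * v.a4) + 
    c * (dB * v.a0 + 1 * v.a1 + 1 * v.a2 + 1 * v.a3 + 1 * v.a4) = _
  unfold S3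
  ring

/-! ### sliding and the values -/

theorem expo_slN (p q : Fin 3) (h : ¬ (p = 1 ∧ q = 1)) (k : ℤ) (w : List (Bool × ℕ)) : 
    expo (slN p q k w) = k + expo w := by
  unfold slN
  split_ifs with h1 h2 h3 h4
  · rw [expo_append, expo_pw]
  · rw [expo_append, expo_pw]
  · rw [expo_append, expo_pw]; ring
  · rw [expo_append, expo_pw]; ring
  · exfalso
    apply h
    constructor <;> omega

theorem one_iff' (p q : Fin 3) (h : ¬ (p = 1 ∧ q = 1)) (k : ℤ) (w : List (Bool × ℕ)) (hw : ∀ x ∈ w, x.2 + 1 < 3) : 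
    (draw (openBraid p q k) w).close.fPoly = 1 ↔ Fu dB 0 p q (X (slN p q k w)) = 
      sg (expo (slN p q k w)) * T (expo (slN p q k w)) := by
  obtain ⟨c, hc, hz⟩ := Zg_ob p q k
  rw [one_iff p q k hz w hw, Fu_slide p q h k hc, expo_slN p q h]

theorem slN_lt (p q : Fin 3) (k : ℤ) (w : List (Bool × ℕ)) (hw : ∀ x ∈ w, x.2 + 1 < 3) : 
    ∀ x ∈ slN p q k w, x.2 + 1 < 3 := by
  intro x hx
  unfold slN at hx
  split_ifs at hx
  · rcases List.mem_append.1 hx with hx | hx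
    · exact pw_lt (by norm_num) k x hx
    · exact hw x hx
  · rcases List.mem_append.1 hx with hx | hx
    · exact pw_lt (by norm_num) k x hx
    · exact hw x hx
  · rcases List.mem_append.1 hx with hx | hx
    · exact hw x hx
    · exact pw_lt (by norm_num) k x hx
  · rcases List.mem_append.1 hx with hx | hx
    · exact hw x hx
    · exact pw_lt (by norm_num) k x hx
  · exact hw x hx

theorem HZ_zero (p q : Fin 3) : HZ p q 0 0 := by
  obtain ⟨c, hc, h⟩ := Zg_ob p q 0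
  have hs : KN.sg 0 = 1 := by unfold KN.sg; rw [if_pos (by decide)]
  rw [hs, mul_zero, T_zero, one_mul] at hc
  have h0 : c = 0 := by
    apply mul_left_cancel₀ dB_ne
    linear_combination hc
  rwa [h0] at h

theorem iff1' {w : List (Bool × ℕ)} (hw : ∀ x ∈ w, x.2 + 1 < 3) : 
    S1 dB (V3.sw (X w)) = KN.sg (expo w) * T (expo w) ↔ ∃ k : ℤ, Same w (swp (t1 k)) := by
  rw [sw_X w hw, ← expo_swp w, iff1 (swp_lt w)]
  refine exists_congr fun k => ⟨fun h => ?_, fun h => ?_⟩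
  · have := h.swp (swp_lt w) (t1_lt k)
    rwa [swp_swp w hw] at this
  · have := h.swp hw (swp_lt _)
    rwa [swp_swp _ (t1_lt k)] at this

theorem iff2' {w : List (Bool × ℕ)} (hw : ∀ x ∈ w, x.2 + 1 < 3) : 
    S2 dB (V3.sw (X w)) = KN.sg (expo w) * T (expo w) ↔ ∃ (s : Bool) (k : ℤ), Same w (swp (t2 s k)) := by
  rw [sw_X w hw, ← expo_swp w, iff2 (swp_lt w)]
  refine exists_congr fun s => exists_congr fun k => ⟨fun h => ?_, fun h => ?_⟩
  · have := h.swp (swp_lt w) (t2_lt s k)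
    rwa [swp_swp w hw] at this
  · have := h.swp hw (swp_lt _)
    rwa [swp_swp _ (t2_lt s k)] at this

/-- the two kinds of words have the same values -/
def Cor (u : List (Bool × ℕ)) (v : List (Letter 3)) : Prop := 
  ∀ (G : Type) [Group G] (a b : G), vN a b u = value a b v

theorem tr_same {u u' : List (Bool × ℕ)} {v v' : List (Letter 3)} (h : Cor u v) (h' : Cor u' v') : 
    Same u u' ↔ SameBraid v v' := by
  unfold Same SameBraid
  constructor
  · intro H G _ a b hab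
    rw [← h, ← h', H G a b hab]
  · intro H G _ a b hab
    rw [h, h', H G a b hab]

theorem Cor.append {u u' : List (Bool × ℕ)} {v v' : List (Letter 3)} (h : Cor u v) (h' : Cor u' v') : 
    Cor (u ++ u') (v ++ v') := by
  intro G _ a b
  rw [vN_append, value_append, h, h']

theorem cor_map (w : List (Letter 3)) : Cor (w.map (fun x => (x.1, (x.2 : ℕ)))) w := by
  intro G _ a b
  rw [value_eq]

theorem cor_s1 (k : ℤ) : Cor (pw 0 k) (s1 k) := by
  intro G _ a b
  unfold s1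
  rw [vN_pw, value_powW, value_s1]
  simp

theorem cor_s2 (k : ℤ) : Cor (pw 1 k) (s2 k) := by
  intro G _ a b
  unfold s2
  rw [vN_pw, value_powW, value_s2]
  simp

theorem cor_t1 (k : ℤ) : Cor (t1 k) (s2 k ++ s1 (-k)) := (cor_s2 k).append (cor_s1 (-k))

theorem cor_l1 (s : Bool) : Cor [(s, 0)] ([(s, 0)] : List (Letter 3)) := cor_map [(s, 0)]

theorem cor_l2 (s : Bool) : Cor [(s, 1)] ([(s, 1)] : List (Letter 3)) := cor_map [(s, 1)]

theorem cor_t2 (s : Bool) (k : ℤ) : Cor (t2 s k) (s1 k ++ [(s, 1)] ++ s1 (-k)) := 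
  ((cor_s1 k).append (cor_l2 s)).append (cor_s1 (-k))

theorem cor_t1' (k : ℤ) : Cor (swp (t1 k)) (s1 k ++ s2 (-k)) := by
  intro G _ a b
  rw [vN_swp a b _ (t1_lt k), cor_t1 k, value_append, value_append]
  unfold s1 s2
  rw [value_powW, value_powW, value_powW, value_powW, value_s1, value_s2, value_s1, value_s2]

theorem cor_t2' (s : Bool) (k : ℤ) : Cor (swp (t2 s k)) (s2 k ++ [(s, 0)] ++ s2 (-k)) := by
  intro G _ a b
  rw [vN_swp a b _ (t2_lt s k), cor_t2 s k, value_append, value_append, value_append, value_append]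
  unfold s1 s2
  rw [value_powW, value_powW, value_powW, value_powW, value_s1, value_s2, value_s1, value_s2]

theorem unk_iff {u : List (Bool × ℕ)} {v : List (Letter 3)} (h : Cor u v) : 
    (∃ (i : Fin 3) (g : List (Bool × ℕ)), (∀ x ∈ g, x.2 + 1 < 3) ∧ Same (u ++ g) (g ++ st i)) ↔ Unknotted v := by
  have c0 : Cor (st 0) ([(true, 0), (true, 1)] : List (Letter 3)) := cor_map [(true, 0), (true, 1)]
  have c1 : Cor (st 1) ([(false, 0), (false, 1)] : List (Letter 3)) := cor_map [(false, 0), (false, 1)]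
  have c2 : Cor (st 2) ([(true, 0), (false, 1)] : List (Letter 3)) := cor_map [(true, 0), (false, 1)]
  constructor
  · rintro ⟨i, g, hg, H⟩
    obtain ⟨g', rfl⟩ := exists_lift g hg
    refine ⟨g', ?_⟩
    fin_cases i
    · exact Or.inl ((tr_same (h.append (cor_map g')) ((cor_map g').append c0)).1 H)
    · exact Or.inr (Or.inl ((tr_same (h.append (cor_map g')) ((cor_map g').append c1)).1 H))
    · exact Or.inr (Or.inr ((tr_same (h.append (cor_map g')) ((cor_map g').append c2)).1 H))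
  · rintro ⟨g, H | H | H⟩
    · exact ⟨0, _, KN.toN_lt g, (tr_same (h.append (cor_map g)) ((cor_map g).append c0)).2 H⟩
    · exact ⟨1, _, KN.toN_lt g, (tr_same (h.append (cor_map g)) ((cor_map g).append c1)).2 H⟩
    · exact ⟨2, _, KN.toN_lt g, (tr_same (h.append (cor_map g)) ((cor_map g).append c2)).2 H⟩

/-- the list by cases -/
def L9 (p q : Fin 3) (k : ℤ) (w : List (Letter 3)) : Prop :=
  match p, q with
  | 0, 0 => Unknotted (s2 k ++ w)
  | 0, 1 => ∃ (s : Bool) (n : ℤ), SameBraid (s2 k ++ w) (s1 n ++ [(s, 1)] ++ s1 (-n))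
  | 0, 2 => ∃ n : ℤ, SameBraid (s2 k ++ w) (s2 n ++ s1 (-n))
  | 1, 0 => ∃ (s : Bool) (n : ℤ), SameBraid (w ++ s2 k) (s1 n ++ [(s, 1)] ++ s1 (-n))
  | 1, 1 => if k = 0 then Unknotted w else (k = 1 ∨ k = -1) ∧ ∃ x : Letter 3, SameBraid w [x]
  | 1, 2 => ∃ (s : Bool) (n : ℤ), SameBraid (w ++ s1 k) (s2 n ++ [(s, 0)] ++ s2 (-n))
  | 2, 0 => ∃ n : ℤ, SameBraid (s1 k ++ w) (s1 n ++ s2 (-n))
  | 2, 1 => ∃ (s : Bool) (n : ℤ), SameBraid (s1 k ++ w) (s2 n ++ [(s, 0)] ++ s2 (-n))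
  | 2, 2 => Unknotted (s1 k ++ w)

theorem M00 (k : ℤ) (w : List (Letter 3)) : (dia (openBraid 0 0 k) w).fPoly = 1 ↔ L9 0 0 k w := by
  unfold dia
  rw [one_iff' 0 0 (by decide) k _ (KN.toN_lt w)]
  have hu := slN_lt 0 0 k _ (KN.toN_lt w)
  have e : slN 0 0 k (w.map (fun x => (x.1, (x.2 : ℕ)))) = pw 1 k ++ w.map (fun x => (x.1, (x.2 : ℕ))) := rfl
  rw [e] at hu ⊢
  rw [Fupp, iff4 hu]
  exact unk_iff ((cor_s2 k).append (cor_map w))

theorem M01 (k : ℤ) (w : List (Letter 3)) : (dia (openBraid 0 1 k) w).fPoly = 1 ↔ L9 0 1 k w := by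
  unfold dia
  rw [one_iff' 0 1 (by decide) k _ (KN.toN_lt w)]
  have hu := slN_lt 0 1 k _ (KN.toN_lt w)
  have e : slN 0 1 k (w.map (fun x => (x.1, (x.2 : ℕ)))) = pw 1 k ++ w.map (fun x => (x.1, (x.2 : ℕ))) := rfl
  rw [e] at hu ⊢
  rw [Fu01, iff2 hu]
  exact exists_congr fun s => exists_congr fun n => tr_same ((cor_s2 k).append (cor_map w)) (cor_t2 s n)

theorem M02 (k : ℤ) (w : List (Letter 3)) : (dia (openBraid 0 2 k) w).fPoly = 1 ↔ L9 0 2 k w := by
  unfold dia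
  rw [one_iff' 0 2 (by decide) k _ (KN.toN_lt w)]
  have hu := slN_lt 0 2 k _ (KN.toN_lt w)
  have e : slN 0 2 k (w.map (fun x => (x.1, (x.2 : ℕ)))) = pw 1 k ++ w.map (fun x => (x.1, (x.2 : ℕ))) := rfl
  rw [e] at hu ⊢
  rw [Fu02, iff1 hu]
  exact exists_congr fun n => tr_same ((cor_s2 k).append (cor_map w)) (cor_t1 n)

theorem M10 (k : ℤ) (w : List (Letter 3)) : (dia (openBraid 1 0 k) w).fPoly = 1 ↔ L9 1 0 k w := by
  unfold dia
  rw [one_iff' 1 0 (by decide) k _ (KN.toN_lt w)]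
  have hu := slN_lt 1 0 k _ (KN.toN_lt w)
  have e : slN 1 0 k (w.map (fun x => (x.1, (x.2 : ℕ)))) = w.map (fun x => (x.1, (x.2 : ℕ))) ++ pw 1 k := rfl
  rw [e] at hu ⊢
  rw [Fu10, iff2 hu]
  exact exists_congr fun s => exists_congr fun n => tr_same ((cor_map w).append (cor_s2 k)) (cor_t2 s n)

theorem M12 (k : ℤ) (w : List (Letter 3)) : (dia (openBraid 1 2 k) w).fPoly = 1 ↔ L9 1 2 k w := by
  unfold dia
  rw [one_iff' 1 2 (by decide) k _ (KN.toN_lt w)]
  have hu := slN_lt 1 2 k _ (KN.toN_lt w)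
  have e : slN 1 2 k (w.map (fun x => (x.1, (x.2 : ℕ)))) = w.map (fun x => (x.1, (x.2 : ℕ))) ++ pw 0 k := rfl
  rw [e] at hu ⊢
  rw [Fu12, iff2' hu]
  exact exists_congr fun s => exists_congr fun n => tr_same ((cor_map w).append (cor_s1 k)) (cor_t2' s n)

theorem M20 (k : ℤ) (w : List (Letter 3)) : (dia (openBraid 2 0 k) w).fPoly = 1 ↔ L9 2 0 k w := by
  unfold dia
  rw [one_iff' 2 0 (by decide) k _ (KN.toN_lt w)]
  have hu := slN_lt 2 0 k _ (KN.toN_lt w)
  have e : slN 2 0 k (w.map (fun x => (x.1, (x.2 : ℕ)))) = pw 0 k ++ w.map (fun x => (x.1, (x.2 : ℕ))) := rfl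
  rw [e] at hu ⊢
  rw [Fu20, iff1' hu]
  exact exists_congr fun n => tr_same ((cor_s1 k).append (cor_map w)) (cor_t1' n)

theorem M21 (k : ℤ) (w : List (Letter 3)) : (dia (openBraid 2 1 k) w).fPoly = 1 ↔ L9 2 1 k w := by
  unfold dia
  rw [one_iff' 2 1 (by decide) k _ (KN.toN_lt w)]
  have hu := slN_lt 2 1 k _ (KN.toN_lt w)
  have e : slN 2 1 k (w.map (fun x => (x.1, (x.2 : ℕ)))) = pw 0 k ++ w.map (fun x => (x.1, (x.2 : ℕ))) := rfl
  rw [e] at hu ⊢
  rw [Fu21, iff2' hu]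
  exact exists_congr fun s => exists_congr fun n => tr_same ((cor_s1 k).append (cor_map w)) (cor_t2' s n)

theorem M22 (k : ℤ) (w : List (Letter 3)) : (dia (openBraid 2 2 k) w).fPoly = 1 ↔ L9 2 2 k w := by
  unfold dia
  rw [one_iff' 2 2 (by decide) k _ (KN.toN_lt w)]
  have hu := slN_lt 2 2 k _ (KN.toN_lt w)
  have e : slN 2 2 k (w.map (fun x => (x.1, (x.2 : ℕ)))) = pw 0 k ++ w.map (fun x => (x.1, (x.2 : ℕ))) := rfl
  rw [e] at hu ⊢
  rw [Fupp, iff4 hu]
  exact unk_iff ((cor_s1 k).append (cor_map w))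

theorem M11 (k : ℤ) (w : List (Letter 3)) : (dia (openBraid 1 1 k) w).fPoly = 1 ↔ L9 1 1 k w := by
  unfold dia
  by_cases hk : k = 0
  · subst hk
    have e : L9 1 1 0 w = Unknotted w := by
      show (if (0 : ℤ) = 0 then Unknotted w else ((0 : ℤ) = 1 ∨ (0 : ℤ) = -1) ∧ ∃ x : Letter 3, SameBraid w [x]) = _
      rw [if_pos rfl]
    rw [one_iff 1 1 0 (HZ_zero 1 1) _ (KN.toN_lt w), Fupp, zero_add, iff4 (KN.toN_lt w), unk_iff (cor_map w), e]
  · obtain ⟨c, hc, hz⟩ := Zg_ob 1 1 k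
    rw [one_iff 1 1 k hz _ (KN.toN_lt w), Fu11, iff3 hk hc (KN.toN_lt w)]
    have e : L9 1 1 k w = ((k = 1 ∨ k = -1) ∧ ∃ x : Letter 3, SameBraid w [x]) := if_neg hk
    rw [e]
    refine and_congr_right fun _ => ?_
    constructor
    · rintro ⟨s, i, h⟩
      exact ⟨(s, i), (tr_same (cor_map w) (cor_map [(s, i)])).1 h⟩
    · rintro ⟨⟨s, i⟩, h⟩
      exact ⟨s, i, (tr_same (cor_map w) (cor_map [(s, i)])).2 h⟩

/-- **The classification.** -/
theorem main (p q : Fin 3) (k : ℤ) (w : List (Letter 3)) : (dia (openBraid p q k) w).fPoly = 1 ↔ Listed p q k w := by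
  unfold Listed
  fin_cases p <;> fin_cases q
  · exact (M00 k w).trans (by simp [L9, slide])
  · exact (M01 k w).trans (by simp [L9, slide])
  · exact (M02 k w).trans (by simp [L9, slide])
  · exact (M10 k w).trans (by simp [L9, slide])
  · refine (M11 k w).trans ?_
    simp only [L9, slide]
    by_cases hk : k = 0
    · subst hk
      simp
    · simp [hk]
  · exact (M12 k w).trans (by simp [L9, slide])
  · exact (M20 k w).trans (by simp [L9, slide])
  · exact (M21 k w).trans (by simp [L9, slide])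
  · exact (M22 k w).trans (by simp [L9, slide])

end Pool.Agent.U963.OB
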