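import Pool.Agent.U963.OB.Zf

/-!
# The normalised bracket of the open closures
-/

set_option autoImplicit false
set_option linter.unusedSimpArgs false

namespace Pool.Agent.U963.OB

open Finset LaurentPolynomial Pool.Agent.H891R2.Jones Pool.Agent.W639.RB Pool.Agent.Y463.SK Pool.Agent.Y463.MP
open Pool.Agent.TH561 (dl ee_of KK)
open Pool.Agent.U963.AR (V3 run one stp wZ wZ_val bracket_draw)
open Pool.Agent.U963.KN
open Pool.Agent.H832R3.TW (IsKnotoid)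
open Pool.Agent.H297.FT (KGood KGood_push knotoid_iff)
open Pool.Agent.U963.JN (un fPoly_eq)

theorem Fu_val (p q : Fin 3) (k : ℤ) {c : ℤ[T;T⁻¹]} (hc : HZ p q k c) (v : V3 ℤ[T;T⁻¹]) : 
    PhiS (by omega) (openBraid p q k) (AR.val (EZ 3) v) = T k * Fu dl (io c) p q v := by
  fin_cases p <;> fin_cases q
  · obtain ⟨h0, h1, h2, h3, h4⟩ := P00 k hc
    refine (PhiS_val _ _ h0 h1 h2 h3 h4).trans ?_
    show _ = T k * ((dl ^ 2 * v.a0 + dl * v.a1 + dl * v.a2 + 1 * v.a3 + 1 * v.a4) + io c * (dl * v.a0 + 1 * v.a1 + dl ^ 2 * v.a2 + dl * v.a3 + dl * v.a4))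
    ring
  · obtain ⟨h0, h1, h2, h3, h4⟩ := P01 k hc
    refine (PhiS_val _ _ h0 h1 h2 h3 h4).trans ?_
    show _ = T k * ((dl * v.a0 + dl * v.a1 + 1 * v.a2 + 1 * v.a3 + 1 * v.a4) + io c * (1 * v.a0 + 1 * v.a1 + dl * v.a2 + 1 * v.a3 + dl * v.a4))
    ring
  · obtain ⟨h0, h1, h2, h3, h4⟩ := P02 k hc
    refine (PhiS_val _ _ h0 h1 h2 h3 h4).trans ?_
    show _ = T k * ((1 * v.a0 + 1 * v.a1 + 1 * v.a2 + 1 * v.a3 + dl * v.a4) + io c * (1 * v.a0 + dl * v.a1 + dl * v.a2 + 1 * v.a3 + dl ^ 2 * v.a4))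
    ring
  · obtain ⟨h0, h1, h2, h3, h4⟩ := P10 k hc
    refine (PhiS_val _ _ h0 h1 h2 h3 h4).trans ?_
    show _ = T k * ((dl * v.a0 + dl * v.a1 + 1 * v.a2 + 1 * v.a3 + 1 * v.a4) + io c * (1 * v.a0 + 1 * v.a1 + dl * v.a2 + dl * v.a3 + 1 * v.a4))
    ring
  · obtain ⟨h0, h1, h2, h3, h4⟩ := P11 k hc
    refine (PhiS_val _ _ h0 h1 h2 h3 h4).trans ?_
    show _ = T k * ((dl ^ 2 * v.a0 + dl * v.a1 + dl * v.a2 + 1 * v.a3 + 1 * v.a4) + io c * (dl * v.a0 + 1 * v.a1 + 1 * v.a2 + 1 * v.a3 + 1 * v.a4))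
    ring
  · obtain ⟨h0, h1, h2, h3, h4⟩ := P12 k hc
    refine (PhiS_val _ _ h0 h1 h2 h3 h4).trans ?_
    show _ = T k * ((dl * v.a0 + 1 * v.a1 + dl * v.a2 + 1 * v.a3 + 1 * v.a4) + io c * (1 * v.a0 + dl * v.a1 + 1 * v.a2 + 1 * v.a3 + dl * v.a4))
    ring
  · obtain ⟨h0, h1, h2, h3, h4⟩ := P20 k hc
    refine (PhiS_val _ _ h0 h1 h2 h3 h4).trans ?_
    show _ = T k * ((1 * v.a0 + 1 * v.a1 + 1 * v.a2 + dl * v.a3 + 1 * v.a4) + io c * (1 * v.a0 + dl * v.a1 + dl * v.a2 + dl ^ 2 * v.a3 + 1 * v.a4))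
    ring
  · obtain ⟨h0, h1, h2, h3, h4⟩ := P21 k hc
    refine (PhiS_val _ _ h0 h1 h2 h3 h4).trans ?_
    show _ = T k * ((dl * v.a0 + 1 * v.a1 + dl * v.a2 + 1 * v.a3 + 1 * v.a4) + io c * (1 * v.a0 + dl * v.a1 + 1 * v.a2 + dl * v.a3 + 1 * v.a4))
    ring
  · obtain ⟨h0, h1, h2, h3, h4⟩ := P22 k hc
    refine (PhiS_val _ _ h0 h1 h2 h3 h4).trans ?_
    show _ = T k * ((dl ^ 2 * v.a0 + dl * v.a1 + dl * v.a2 + 1 * v.a3 + 1 * v.a4) + io c * (dl * v.a0 + dl ^ 2 * v.a1 + 1 * v.a2 + dl * v.a3 + dl * v.a4))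
    ring

theorem b_ob (p q : Fin 3) (k : ℤ) {c : ℤ[T;T⁻¹]} (hc : HZ p q k c) (w : List (Bool × ℕ)) (hw : ∀ x ∈ w, x.2 + 1 < 3) : 
    (draw (openBraid p q k) w).close.bracket = T k * Fu dl (io c) p q (run (T 1) (T (-1)) dl w (one ℤ[T;T⁻¹])) := by
  rw [bracket_run _ w hw, Fu_val p q k hc]

theorem writhe_ob (p q : Fin 3) (k : ℤ) (w : List (Bool × ℕ)) (hw : ∀ x ∈ w, x.2 + 1 < 3) : 
    (draw (openBraid p q k) w).close.writhe = k + expo w := by
  rw [close_writhe, (draw_up w (openBraid p q k) hw (fun _ => rfl)).2]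
  congr 1
  have h1 : owr (openBraid p q k) = owr (draw (braidClosure 2) (List.replicate k.natAbs (decide (0 ≤ k), 0))) := by
    unfold owr openBraid OB.openUp
    dsimp only
    rw [List.map_map]
    rfl
  rw [h1, (draw_up _ (braidClosure 2) (rep_lt k) (fun _ => rfl)).2]
  have h2 : owr (braidClosure 2) = 0 := rfl
  have h3 := expo_pw 0 k
  unfold pw at h3
  rw [h2, h3, zero_add]

theorem tF_io (p q : Fin 3) : tF dl p q = (tF dB p q).map io := by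
  fin_cases p <;> fin_cases q <;> simp [tF, V3.map, io_dB]

theorem tG_io (p q : Fin 3) : tG dl p q = (tG dB p q).map io := by
  fin_cases p <;> fin_cases q <;> simp [tG, V3.map, io_dB]

theorem Fu_io (c : ℤ[T;T⁻¹]) (p q : Fin 3) (v : V3 ℤ[T;T⁻¹]) : Fu dl (io c) p q (v.map io) = io (Fu dB c p q v) := by
  unfold Fu pair5
  rw [tF_io, tG_io]
  simp only [V3.map, map_add, map_mul]

theorem Fu_sc (r d c : ℤ[T;T⁻¹]) (p q : Fin 3) (v : V3 ℤ[T;T⁻¹]) : Fu d c p q (sc r v) = r * Fu d c p q v := by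
  unfold Fu pair5 sc
  ring

theorem f_ob (p q : Fin 3) (k : ℤ) {c : ℤ[T;T⁻¹]} (hc : HZ p q k c) (w : List (Bool × ℕ)) (hw : ∀ x ∈ w, x.2 + 1 < 3) : 
    (draw (openBraid p q k) w).close.fPoly = un (k + expo w) * (T (k + expo w) * io (Fu dB c p q (X w))) := by
  rw [fPoly_eq, writhe_ob p q k w hw, b_ob p q k hc w hw, run_X, Fu_sc, Fu_io, ← mul_assoc (T k), T_mul]

theorem one_iff (p q : Fin 3) (k : ℤ) {c : ℤ[T;T⁻¹]} (hc : HZ p q k c) (w : List (Bool × ℕ)) (hw : ∀ x ∈ w, x.2 + 1 < 3) : 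
    (draw (openBraid p q k) w).close.fPoly = 1 ↔ Fu dB c p q (X w) = sg (k + expo w) * T (k + expo w) := by
  rw [f_ob p q k hc w hw, f_one_iff]

/-! ### sliding -/

/-- multiplication on the left by `1 + c e_i` -/
noncomputable def lst (c d : ℤ[T;T⁻¹]) (v : V3 ℤ[T;T⁻¹]) (i : ℕ) : V3 ℤ[T;T⁻¹] := 
  match i with
  | 0 => ⟨v.a0, v.a1 + c * (v.a0 + d * v.a1 + v.a4), v.a2, v.a3 + c * (v.a2 + d * v.a3), v.a4⟩
  | _ => ⟨v.a0, v.a1, v.a2 + c * (v.a0 + d * v.a2 + v.a3), v.a3, v.a4 + c * (v.a1 + d * v.a4)⟩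

theorem stp_lst (c c' d : ℤ[T;T⁻¹]) (v : V3 ℤ[T;T⁻¹]) (i j : ℕ) : 
    stp 1 c' d (lst c d v i) j = lst c d (stp 1 c' d v j) i := by
  rcases i with _ | i
  · rcases j with _ | j
    · simp only [AR.stp, lst, V3.mk.injEq]
      refine ⟨?_, ?_, ?_, ?_, ?_⟩ <;> first | exact True.intro | ring
    · simp only [AR.stp, lst, V3.mk.injEq]
      refine ⟨?_, ?_, ?_, ?_, ?_⟩ <;> first | exact True.intro | ring
  · rcases j with _ | j
    · simp only [AR.stp, lst, V3.mk.injEq]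
      refine ⟨?_, ?_, ?_, ?_, ?_⟩ <;> first | exact True.intro | ring
    · simp only [AR.stp, lst, V3.mk.injEq]
      refine ⟨?_, ?_, ?_, ?_, ?_⟩ <;> first | exact True.intro | ring

theorem nrun_lst (w : List (Bool × ℕ)) (c : ℤ[T;T⁻¹]) (i : ℕ) : ∀ v, nrun w (lst c dB v i) = lst c dB (nrun w v) i := by
  induction w with
  | nil => intro v; rfl
  | cons x w ih =>
    intro v
    rw [nrun, nrun, stp_lst, ih]

theorem X_left (i : ℕ) (k : ℤ) {c : ℤ[T;T⁻¹]} (hc : 1 + dB * c = sg k * T (-2 * k)) (w : List (Bool × ℕ)) : 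
    X (pw i k ++ w) = lst c dB (X w) i := by
  obtain ⟨c', hc', h⟩ := nrun_pw i k
  have e : c' = c := coeff_unique hc' hc
  subst e
  unfold X
  rw [nrun_append, h]
  have e2 : stp 1 c' dB (one _) i = lst c' dB (one _) i := by
    rcases i with _ | i <;> simp [stp, lst, one]
  rw [e2, nrun_lst]

theorem X_right (i : ℕ) (k : ℤ) {c : ℤ[T;T⁻¹]} (hc : 1 + dB * c = sg k * T (-2 * k)) (w : List (Bool × ℕ)) : 
    X (w ++ pw i k) = stp 1 c dB (X w) i := by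
  obtain ⟨c', hc', h⟩ := nrun_pw i k
  have e : c' = c := coeff_unique hc' hc
  subst e
  unfold X
  rw [nrun_append, h]

/-- the place of the crossings after the slide -/
def slN (p q : Fin 3) (k : ℤ) (w : List (Bool × ℕ)) : List (Bool × ℕ) := 
  if p = 0 then pw 1 k ++ w else if p = 2 then pw 0 k ++ w else if q = 0 then w ++ pw 1 k else 
    if q = 2 then w ++ pw 0 k else w

theorem Fu_slide (p q : Fin 3) (h : ¬ (p = 1 ∧ q = 1)) (k : ℤ) {c : ℤ[T;T⁻¹]} (hc : 1 + dB * c = sg k * T (-2 * k)) 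
    (w : List (Bool × ℕ)) : Fu dB c p q (X w) = Fu dB 0 p q (X (slN p q k w)) := by
  fin_cases p <;> fin_cases q
  · show Fu dB c 0 0 (X w) = Fu dB 0 0 0 (X (pw 1 k ++ w))
    rw [X_left 1 k hc w]
    simp only [Fu, pair5, tF, tG, lst, stp, Matrix.cons_val_zero, Matrix.cons_val_one, Matrix.cons_val, Matrix.cons_val_two, Matrix.head_cons, Matrix.tail_cons]
    ring
  · show Fu dB c 0 1 (X w) = Fu dB 0 0 1 (X (pw 1 k ++ w))
    rw [X_left 1 k hc w]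
    simp only [Fu, pair5, tF, tG, lst, stp, Matrix.cons_val_zero, Matrix.cons_val_one, Matrix.cons_val, Matrix.cons_val_two, Matrix.head_cons, Matrix.tail_cons]
    ring
  · show Fu dB c 0 2 (X w) = Fu dB 0 0 2 (X (pw 1 k ++ w))
    rw [X_left 1 k hc w]
    simp only [Fu, pair5, tF, tG, lst, stp, Matrix.cons_val_zero, Matrix.cons_val_one, Matrix.cons_val, Matrix.cons_val_two, Matrix.head_cons, Matrix.tail_cons]
    ring
  · show Fu dB c 1 0 (X w) = Fu dB 0 1 0 (X (w ++ pw 1 k))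
    rw [X_right 1 k hc w]
    simp only [Fu, pair5, tF, tG, lst, stp, Matrix.cons_val_zero, Matrix.cons_val_one, Matrix.cons_val, Matrix.cons_val_two, Matrix.head_cons, Matrix.tail_cons]
    ring
  · exact absurd ⟨rfl, rfl⟩ h
  · show Fu dB c 1 2 (X w) = Fu dB 0 1 2 (X (w ++ pw 0 k))
    rw [X_right 0 k hc w]
    simp only [Fu, pair5, tF, tG, lst, stp, Matrix.cons_val_zero, Matrix.cons_val_one, Matrix.cons_val, Matrix.cons_val_two, Matrix.head_cons, Matrix.tail_cons]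
    ring
  · show Fu dB c 2 0 (X w) = Fu dB 0 2 0 (X (pw 0 k ++ w))
    rw [X_left 0 k hc w]
    simp only [Fu, pair5, tF, tG, lst, stp, Matrix.cons_val_zero, Matrix.cons_val_one, Matrix.cons_val, Matrix.cons_val_two, Matrix.head_cons, Matrix.tail_cons]
    ring
  · show Fu dB c 2 1 (X w) = Fu dB 0 2 1 (X (pw 0 k ++ w))
    rw [X_left 0 k hc w]
    simp only [Fu, pair5, tF, tG, lst, stp, Matrix.cons_val_zero, Matrix.cons_val_one, Matrix.cons_val, Matrix.cons_val_two, Matrix.head_cons, Matrix.tail_cons]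
    ring
  · show Fu dB c 2 2 (X w) = Fu dB 0 2 2 (X (pw 0 k ++ w))
    rw [X_left 0 k hc w]
    simp only [Fu, pair5, tF, tG, lst, stp, Matrix.cons_val_zero, Matrix.cons_val_one, Matrix.cons_val, Matrix.cons_val_two, Matrix.head_cons, Matrix.tail_cons]
    ring

end Pool.Agent.U963.OB
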