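import Pool.Agent.U963.OB.Defs
import Pool.Agent.U963.KN.Cl3

/-!
# The bracket of the open closures
-/

set_option autoImplicit false
set_option linter.unusedSimpArgs false

namespace Pool.Agent.U963.OB

open Finset LaurentPolynomial Pool.Agent.H891R2.Jones Pool.Agent.W639.RB Pool.Agent.Y463.SK Pool.Agent.Y463.MP
open Pool.Agent.TH561 (dl ee_of KK)
open Pool.Agent.U963.AR (V3 run one stp wZ wZ_val bracket_draw)
open Pool.Agent.U963.KN
open Pool.Agent.H832R3.TW (IsKnotoid)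
open Pool.Agent.H297.FT (KGood KGood_push knotoid_iff)
open Pool.Agent.U963.JN (un fPoly_eq)

theorem elim_ins {P : Type} {N : ℕ} (u : P → Fin N) (x : Bool → Fin N) (b : Bool) (f : Fin 2 → P) (p : Fin 3) : 
    (Sum.elim u x ∘ (p.insertNth (Sum.inr b) (fun j => Sum.inl (f j)) : Fin 3 → P ⊕ Bool)) = 
      (p.insertNth (x b) (u ∘ f) : Fin 3 → Fin N) := by
  funext j
  fin_cases p <;> fin_cases j <;> rfl

theorem Zg_openUp {N : ℕ} (A : ℂ) (O : Outer 2) (p q : Fin 3) (g : (Fin 3 → Fin N) → ((Fin 3 → Fin N) → ℂ)) : 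
    Zg A N (OB.openUp O p q) g = ∑ a, ∑ d, Zg A N O (fun x y => g (p.insertNth a x) (q.insertNth d y)) := by
  have e : Zg A N (OB.openUp O p q) g = ∑ u : O.P → Fin N, ∑ x : Bool → Fin N, WW A O.arcs O.crossings u * 
      g (p.insertNth (x false) (u ∘ O.lower)) (q.insertNth (x true) (u ∘ O.upper)) := by
    unfold Zg
    show (∑ col : O.P ⊕ Bool → Fin N, WW A (O.arcs.map (Prod.map Sum.inl Sum.inl)) (O.crossings.map (Crossing.map Sum.inl)) col * 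
      g (col ∘ (OB.openUp O p q).lower) (col ∘ (OB.openUp O p q).upper)) = _
    rw [← (Equiv.sumArrowEquivProdArrow O.P Bool (Fin N)).symm.sum_comp, Fintype.sum_prod_type]
    refine Finset.sum_congr rfl fun u _ => Finset.sum_congr rfl fun x _ => ?_
    rw [WW_map]
    congr 1
    have e1 : ((Equiv.sumArrowEquivProdArrow O.P Bool (Fin N)).symm (u, x)) ∘ (OB.openUp O p q).lower = 
        (p.insertNth (x false) (u ∘ O.lower) : Fin 3 → Fin N) := elim_ins u x false O.lower p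
    have e2 : ((Equiv.sumArrowEquivProdArrow O.P Bool (Fin N)).symm (u, x)) ∘ (OB.openUp O p q).upper = 
        (q.insertNth (x true) (u ∘ O.upper) : Fin 3 → Fin N) := elim_ins u x true O.upper q
    rw [e1, e2]
  rw [e, Finset.sum_comm, sum_bool]
  rfl

/-- the formula for the outside -/
def HZ (p q : Fin 3) (k : ℤ) (c : ℤ[T;T⁻¹]) : Prop := 
    ∀ (N : ℕ) (hN : 3 ≤ N) (g : (Fin 3 → Fin N) → ((Fin 3 → Fin N) → ℂ)), 
      Zg (Ar N) N (openBraid p q k) g = ev N hN (T k) * ((∑ a, ∑ d, ∑ r, ∑ s, 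
        g (p.insertNth a ![r, s]) (q.insertNth d ![r, s])) + 
        ev N hN (io c) * ∑ a, ∑ d, ∑ r, ∑ e, g (p.insertNth a ![e, e]) (q.insertNth d ![r, r]))

theorem Zg_ob (p q : Fin 3) (k : ℤ) : ∃ c : ℤ[T;T⁻¹], 1 + dB * c = sg k * T (-2 * k) ∧ HZ p q k c := by
  obtain ⟨c, hc, h⟩ := rho_rep (decide (0 ≤ k)) k.natAbs
  refine ⟨c, ?_, fun N hN g => ?_⟩
  · rw [hc, pow_lc]
  · unfold openBraid
    rw [Zg_openUp]
    have e1 : ∀ a d, Zg (Ar N) N (draw (braidClosure 2) (List.replicate k.natAbs (decide (0 ≤ k), 0))) 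
        (fun x y => g (p.insertNth a x) (q.insertNth d y)) = ev N hN (T k) * ((∑ r, ∑ s, 
          g (p.insertNth a ![r, s]) (q.insertNth d ![r, s])) + 
        ev N hN (io c) * ∑ r, ∑ e, g (p.insertNth a ![e, e]) (q.insertNth d ![r, r])) := by
      intro a d
      rw [Zg_draw _ _ (by
        intro x hx
        rw [List.eq_of_mem_replicate hx]
        norm_num), h N hN, LinearMap.smul_apply, Zg_smul, LinearMap.add_apply, Zg_add, LinearMap.smul_apply, Zg_smul, 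
        Zg_cl, Zg_cl]
      have e2 : (k.natAbs : ℤ) * (if decide (0 ≤ k) = true then 1 else -1) = k := by
        by_cases hk : 0 ≤ k
        · rw [if_pos (decide_eq_true hk)]; omega
        · rw [if_neg (by simpa using hk)]; omega
      rw [e2]
      congr 2
      congr 1
      refine Finset.sum_congr rfl fun r _ => ?_
      simp only [KN.ee2]
      rw [Finset.sum_ite_eq Finset.univ r, if_pos (Finset.mem_univ _)]
    simp only [e1]
    simp only [← Finset.mul_sum, Finset.sum_add_distrib]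

theorem ins0 {N : ℕ} (a r s : Fin N) : ((0 : Fin 3).insertNth a ![r, s] : Fin 3 → Fin N) = ![a, r, s] := by
  funext j
  fin_cases j <;> rfl

theorem ins1 {N : ℕ} (a r s : Fin N) : ((1 : Fin 3).insertNth a ![r, s] : Fin 3 → Fin N) = ![r, a, s] := by
  funext j
  fin_cases j <;> rfl

theorem ins2 {N : ℕ} (a r s : Fin N) : ((2 : Fin 3).insertNth a ![r, s] : Fin 3 → Fin N) = ![r, s, a] := by
  funext j
  fin_cases j <;> rfl

/-- the values of the functional for parallel arcs -/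
noncomputable def tF (d : ℤ[T;T⁻¹]) (p q : Fin 3) : V3 ℤ[T;T⁻¹] := 
  ((![![⟨d ^ 2, d, d, 1, 1⟩, ⟨d, d, 1, 1, 1⟩, ⟨1, 1, 1, 1, d⟩],
    ![⟨d, d, 1, 1, 1⟩, ⟨d ^ 2, d, d, 1, 1⟩, ⟨d, 1, d, 1, 1⟩],
    ![⟨1, 1, 1, d, 1⟩, ⟨d, 1, d, 1, 1⟩, ⟨d ^ 2, d, d, 1, 1⟩]] : Fin 3 → Fin 3 → V3 ℤ[T;T⁻¹]) p q)

/-- the values of the functional for the arcs which turn back -/
noncomputable def tG (d : ℤ[T;T⁻¹]) (p q : Fin 3) : V3 ℤ[T;T⁻¹] := 
  ((![![⟨d, 1, d ^ 2, d, d⟩, ⟨1, 1, d, 1, d⟩, ⟨1, d, d, 1, d ^ 2⟩],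
    ![⟨1, 1, d, d, 1⟩, ⟨d, 1, 1, 1, 1⟩, ⟨1, d, 1, 1, d⟩],
    ![⟨1, d, d, d ^ 2, 1⟩, ⟨1, d, 1, d, 1⟩, ⟨d, d ^ 2, 1, d, d⟩]] : Fin 3 → Fin 3 → V3 ℤ[T;T⁻¹]) p q)

/-- pairing -/
noncomputable def pair5 (u v : V3 ℤ[T;T⁻¹]) : ℤ[T;T⁻¹] := u.a0 * v.a0 + u.a1 * v.a1 + u.a2 * v.a2 + u.a3 * v.a3 + u.a4 * v.a4

/-- the functional -/
noncomputable def Fu (d c : ℤ[T;T⁻¹]) (p q : Fin 3) (v : V3 ℤ[T;T⁻¹]) : ℤ[T;T⁻¹] := pair5 (tF d p q) v + c * pair5 (tG d p q) v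

theorem P00 (k : ℤ) {c : ℤ[T;T⁻¹]} (hc : HZ 0 0 k c) : 
    PhiS (by omega) (openBraid 0 0 k) 1 = T k * (dl ^ 2 + io c * dl) ∧
    PhiS (by omega) (openBraid 0 0 k) (EZ 3 0) = T k * (dl + io c * 1) ∧
    PhiS (by omega) (openBraid 0 0 k) (EZ 3 1) = T k * (dl + io c * dl ^ 2) ∧
    PhiS (by omega) (openBraid 0 0 k) (EZ 3 0 * EZ 3 1) = T k * (1 + io c * dl) ∧
    PhiS (by omega) (openBraid 0 0 k) (EZ 3 1 * EZ 3 0) = T k * (1 + io c * dl) := by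
  refine ⟨PhiS_at _ _ _ fun N hN => ?_, PhiS_at _ _ _ fun N hN => ?_, PhiS_at _ _ _ fun N hN => ?_, 
    PhiS_at _ _ _ fun N hN => ?_, PhiS_at _ _ _ fun N hN => ?_⟩
  all_goals
    rw [hc N hN]
    simp only [ins0, ins1, ins2, B1, B0, B2, B3, B4, ee0, ee1, ind3, map_one, map_mul, map_add, map_pow, ev_dl']
    rw [mul_left_comm]
    congr 1
    simp [Finset.sum_ite_eq, Finset.sum_ite_eq']
    try ring

theorem P01 (k : ℤ) {c : ℤ[T;T⁻¹]} (hc : HZ 0 1 k c) : 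
    PhiS (by omega) (openBraid 0 1 k) 1 = T k * (dl + io c * 1) ∧
    PhiS (by omega) (openBraid 0 1 k) (EZ 3 0) = T k * (dl + io c * 1) ∧
    PhiS (by omega) (openBraid 0 1 k) (EZ 3 1) = T k * (1 + io c * dl) ∧
    PhiS (by omega) (openBraid 0 1 k) (EZ 3 0 * EZ 3 1) = T k * (1 + io c * 1) ∧
    PhiS (by omega) (openBraid 0 1 k) (EZ 3 1 * EZ 3 0) = T k * (1 + io c * dl) := by
  refine ⟨PhiS_at _ _ _ fun N hN => ?_, PhiS_at _ _ _ fun N hN => ?_, PhiS_at _ _ _ fun N hN => ?_, 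
    PhiS_at _ _ _ fun N hN => ?_, PhiS_at _ _ _ fun N hN => ?_⟩
  all_goals
    rw [hc N hN]
    simp only [ins0, ins1, ins2, B1, B0, B2, B3, B4, ee0, ee1, ind3, map_one, map_mul, map_add, map_pow, ev_dl']
    rw [mul_left_comm]
    congr 1
    simp [Finset.sum_ite_eq, Finset.sum_ite_eq']
    try ring

theorem P02 (k : ℤ) {c : ℤ[T;T⁻¹]} (hc : HZ 0 2 k c) : 
    PhiS (by omega) (openBraid 0 2 k) 1 = T k * (1 + io c * 1) ∧
    PhiS (by omega) (openBraid 0 2 k) (EZ 3 0) = T k * (1 + io c * dl) ∧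
    PhiS (by omega) (openBraid 0 2 k) (EZ 3 1) = T k * (1 + io c * dl) ∧
    PhiS (by omega) (openBraid 0 2 k) (EZ 3 0 * EZ 3 1) = T k * (1 + io c * 1) ∧
    PhiS (by omega) (openBraid 0 2 k) (EZ 3 1 * EZ 3 0) = T k * (dl + io c * dl ^ 2) := by
  refine ⟨PhiS_at _ _ _ fun N hN => ?_, PhiS_at _ _ _ fun N hN => ?_, PhiS_at _ _ _ fun N hN => ?_, 
    PhiS_at _ _ _ fun N hN => ?_, PhiS_at _ _ _ fun N hN => ?_⟩
  all_goals
    rw [hc N hN]
    simp only [ins0, ins1, ins2, B1, B0, B2, B3, B4, ee0, ee1, ind3, map_one, map_mul, map_add, map_pow, ev_dl']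
    rw [mul_left_comm]
    congr 1
    simp [Finset.sum_ite_eq, Finset.sum_ite_eq']
    try ring

theorem P10 (k : ℤ) {c : ℤ[T;T⁻¹]} (hc : HZ 1 0 k c) : 
    PhiS (by omega) (openBraid 1 0 k) 1 = T k * (dl + io c * 1) ∧
    PhiS (by omega) (openBraid 1 0 k) (EZ 3 0) = T k * (dl + io c * 1) ∧
    PhiS (by omega) (openBraid 1 0 k) (EZ 3 1) = T k * (1 + io c * dl) ∧
    PhiS (by omega) (openBraid 1 0 k) (EZ 3 0 * EZ 3 1) = T k * (1 + io c * dl) ∧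
    PhiS (by omega) (openBraid 1 0 k) (EZ 3 1 * EZ 3 0) = T k * (1 + io c * 1) := by
  refine ⟨PhiS_at _ _ _ fun N hN => ?_, PhiS_at _ _ _ fun N hN => ?_, PhiS_at _ _ _ fun N hN => ?_, 
    PhiS_at _ _ _ fun N hN => ?_, PhiS_at _ _ _ fun N hN => ?_⟩
  all_goals
    rw [hc N hN]
    simp only [ins0, ins1, ins2, B1, B0, B2, B3, B4, ee0, ee1, ind3, map_one, map_mul, map_add, map_pow, ev_dl']
    rw [mul_left_comm]
    congr 1
    simp [Finset.sum_ite_eq, Finset.sum_ite_eq']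
    try ring

theorem P11 (k : ℤ) {c : ℤ[T;T⁻¹]} (hc : HZ 1 1 k c) : 
    PhiS (by omega) (openBraid 1 1 k) 1 = T k * (dl ^ 2 + io c * dl) ∧
    PhiS (by omega) (openBraid 1 1 k) (EZ 3 0) = T k * (dl + io c * 1) ∧
    PhiS (by omega) (openBraid 1 1 k) (EZ 3 1) = T k * (dl + io c * 1) ∧
    PhiS (by omega) (openBraid 1 1 k) (EZ 3 0 * EZ 3 1) = T k * (1 + io c * 1) ∧
    PhiS (by omega) (openBraid 1 1 k) (EZ 3 1 * EZ 3 0) = T k * (1 + io c * 1) := by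
  refine ⟨PhiS_at _ _ _ fun N hN => ?_, PhiS_at _ _ _ fun N hN => ?_, PhiS_at _ _ _ fun N hN => ?_, 
    PhiS_at _ _ _ fun N hN => ?_, PhiS_at _ _ _ fun N hN => ?_⟩
  all_goals
    rw [hc N hN]
    simp only [ins0, ins1, ins2, B1, B0, B2, B3, B4, ee0, ee1, ind3, map_one, map_mul, map_add, map_pow, ev_dl']
    rw [mul_left_comm]
    congr 1
    simp [Finset.sum_ite_eq, Finset.sum_ite_eq']
    try ring

theorem P12 (k : ℤ) {c : ℤ[T;T⁻¹]} (hc : HZ 1 2 k c) : 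
    PhiS (by omega) (openBraid 1 2 k) 1 = T k * (dl + io c * 1) ∧
    PhiS (by omega) (openBraid 1 2 k) (EZ 3 0) = T k * (1 + io c * dl) ∧
    PhiS (by omega) (openBraid 1 2 k) (EZ 3 1) = T k * (dl + io c * 1) ∧
    PhiS (by omega) (openBraid 1 2 k) (EZ 3 0 * EZ 3 1) = T k * (1 + io c * 1) ∧
    PhiS (by omega) (openBraid 1 2 k) (EZ 3 1 * EZ 3 0) = T k * (1 + io c * dl) := by
  refine ⟨PhiS_at _ _ _ fun N hN => ?_, PhiS_at _ _ _ fun N hN => ?_, PhiS_at _ _ _ fun N hN => ?_, 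
    PhiS_at _ _ _ fun N hN => ?_, PhiS_at _ _ _ fun N hN => ?_⟩
  all_goals
    rw [hc N hN]
    simp only [ins0, ins1, ins2, B1, B0, B2, B3, B4, ee0, ee1, ind3, map_one, map_mul, map_add, map_pow, ev_dl']
    rw [mul_left_comm]
    congr 1
    simp [Finset.sum_ite_eq, Finset.sum_ite_eq']
    try ring

theorem P20 (k : ℤ) {c : ℤ[T;T⁻¹]} (hc : HZ 2 0 k c) : 
    PhiS (by omega) (openBraid 2 0 k) 1 = T k * (1 + io c * 1) ∧
    PhiS (by omega) (openBraid 2 0 k) (EZ 3 0) = T k * (1 + io c * dl) ∧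
    PhiS (by omega) (openBraid 2 0 k) (EZ 3 1) = T k * (1 + io c * dl) ∧
    PhiS (by omega) (openBraid 2 0 k) (EZ 3 0 * EZ 3 1) = T k * (dl + io c * dl ^ 2) ∧
    PhiS (by omega) (openBraid 2 0 k) (EZ 3 1 * EZ 3 0) = T k * (1 + io c * 1) := by
  refine ⟨PhiS_at _ _ _ fun N hN => ?_, PhiS_at _ _ _ fun N hN => ?_, PhiS_at _ _ _ fun N hN => ?_, 
    PhiS_at _ _ _ fun N hN => ?_, PhiS_at _ _ _ fun N hN => ?_⟩
  all_goals
    rw [hc N hN]
    simp only [ins0, ins1, ins2, B1, B0, B2, B3, B4, ee0, ee1, ind3, map_one, map_mul, map_add, map_pow, ev_dl']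
    rw [mul_left_comm]
    congr 1
    simp [Finset.sum_ite_eq, Finset.sum_ite_eq']
    try ring

theorem P21 (k : ℤ) {c : ℤ[T;T⁻¹]} (hc : HZ 2 1 k c) : 
    PhiS (by omega) (openBraid 2 1 k) 1 = T k * (dl + io c * 1) ∧
    PhiS (by omega) (openBraid 2 1 k) (EZ 3 0) = T k * (1 + io c * dl) ∧
    PhiS (by omega) (openBraid 2 1 k) (EZ 3 1) = T k * (dl + io c * 1) ∧
    PhiS (by omega) (openBraid 2 1 k) (EZ 3 0 * EZ 3 1) = T k * (1 + io c * dl) ∧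
    PhiS (by omega) (openBraid 2 1 k) (EZ 3 1 * EZ 3 0) = T k * (1 + io c * 1) := by
  refine ⟨PhiS_at _ _ _ fun N hN => ?_, PhiS_at _ _ _ fun N hN => ?_, PhiS_at _ _ _ fun N hN => ?_, 
    PhiS_at _ _ _ fun N hN => ?_, PhiS_at _ _ _ fun N hN => ?_⟩
  all_goals
    rw [hc N hN]
    simp only [ins0, ins1, ins2, B1, B0, B2, B3, B4, ee0, ee1, ind3, map_one, map_mul, map_add, map_pow, ev_dl']
    rw [mul_left_comm]
    congr 1
    simp [Finset.sum_ite_eq, Finset.sum_ite_eq']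
    try ring

theorem P22 (k : ℤ) {c : ℤ[T;T⁻¹]} (hc : HZ 2 2 k c) : 
    PhiS (by omega) (openBraid 2 2 k) 1 = T k * (dl ^ 2 + io c * dl) ∧
    PhiS (by omega) (openBraid 2 2 k) (EZ 3 0) = T k * (dl + io c * dl ^ 2) ∧
    PhiS (by omega) (openBraid 2 2 k) (EZ 3 1) = T k * (dl + io c * 1) ∧
    PhiS (by omega) (openBraid 2 2 k) (EZ 3 0 * EZ 3 1) = T k * (1 + io c * dl) ∧
    PhiS (by omega) (openBraid 2 2 k) (EZ 3 1 * EZ 3 0) = T k * (1 + io c * dl) := by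
  refine ⟨PhiS_at _ _ _ fun N hN => ?_, PhiS_at _ _ _ fun N hN => ?_, PhiS_at _ _ _ fun N hN => ?_, 
    PhiS_at _ _ _ fun N hN => ?_, PhiS_at _ _ _ fun N hN => ?_⟩
  all_goals
    rw [hc N hN]
    simp only [ins0, ins1, ins2, B1, B0, B2, B3, B4, ee0, ee1, ind3, map_one, map_mul, map_add, map_pow, ev_dl']
    rw [mul_left_comm]
    congr 1
    simp [Finset.sum_ite_eq, Finset.sum_ite_eq']
    try ring

end Pool.Agent.U963.OB
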